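import Mathlib

set_option autoImplicit false

namespace Pool.Agent.Helper87.CMC

open Set Metric

theorem chord_arc_hd {F : Type} [NormedAddCommGroup F] [NormedSpace ℝ F] (R : ℝ)
    (Y : ℂ → F) (hY : ∀ t ∈ closedBall (0 : ℂ) R, DifferentiableAt ℝ Y t)
    (x : ℝ) (hx0 : 0 ≤ x) (hxR : x ≤ R) (φ : ℝ) :
    HasDerivAt (fun φ : ℝ => Y ((x:ℂ) * Complex.exp (φ * Complex.I)))
      (fderiv ℝ Y ((x:ℂ) * Complex.exp (φ * Complex.I))
        ((x:ℂ) * (Complex.exp (φ * Complex.I) * Complex.I))) φ := by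
  have h1 : HasDerivAt (fun φ : ℝ => (x:ℂ) * Complex.exp (φ * Complex.I))
      ((x:ℂ) * (Complex.exp (φ * Complex.I) * Complex.I)) φ := by
    have h2 : HasDerivAt (fun z : ℂ => (x:ℂ) * Complex.exp (z * Complex.I))
        ((x:ℂ) * (Complex.exp (φ * Complex.I) * (1 * Complex.I))) (φ : ℂ) :=
      (((hasDerivAt_id (φ:ℂ)).mul_const Complex.I).cexp).const_mul _
    rw [one_mul] at h2
    exact h2.comp_ofReal
  have h3 : DifferentiableAt ℝ Y ((x:ℂ) * Complex.exp (φ * Complex.I)) := by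
    refine hY _ ?_
    rw [mem_closedBall_zero_iff, norm_mul, Complex.norm_exp_ofReal_mul_I, mul_one,
      Complex.norm_real, Real.norm_of_nonneg hx0]
    exact hxR
  exact h3.hasFDerivAt.comp_hasDerivAt φ h1

theorem chord_arc_arc {F : Type} [NormedAddCommGroup F] [NormedSpace ℝ F] (ε R c : ℝ)
    (Y : ℂ → F) (hY : ∀ t ∈ closedBall (0 : ℂ) R, DifferentiableAt ℝ Y t)
    (hb : ∀ t ∈ closedBall (0 : ℂ) R, ‖fderiv ℝ Y t‖ ≤ c / (ε ^ 2 + ‖t‖ ^ 2))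
    (x : ℝ) (hx0 : 0 ≤ x) (hxR : x ≤ R) (a b : ℝ) :
    ‖Y ((x:ℂ) * Complex.exp (a * Complex.I)) - Y ((x:ℂ) * Complex.exp (b * Complex.I))‖ ≤
      c / (ε ^ 2 + x ^ 2) * x * |a - b| := by
  have hn : ∀ φ : ℝ, ‖(x:ℂ) * Complex.exp (φ * Complex.I)‖ = x := by
    intro φ
    rw [norm_mul, Complex.norm_exp_ofReal_mul_I, mul_one, Complex.norm_real,
      Real.norm_of_nonneg hx0]
  have h := Convex.norm_image_sub_le_of_norm_hasDerivWithin_le
    (f := fun φ : ℝ => Y ((x:ℂ) * Complex.exp (φ * Complex.I)))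
    (f' := fun φ : ℝ => fderiv ℝ Y ((x:ℂ) * Complex.exp (φ * Complex.I))
        ((x:ℂ) * (Complex.exp (φ * Complex.I) * Complex.I)))
    (C := c / (ε ^ 2 + x ^ 2) * x) (s := univ) (x := b) (y := a)
    (fun φ _ => (chord_arc_hd R Y hY x hx0 hxR φ).hasDerivWithinAt)
    (fun φ _ => by
      refine (ContinuousLinearMap.le_opNorm _ _).trans ?_
      have h1 : ‖(x:ℂ) * (Complex.exp (φ * Complex.I) * Complex.I)‖ = x := by
        rw [← mul_assoc, norm_mul, hn, Complex.norm_I, mul_one]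
      rw [h1]
      refine mul_le_mul_of_nonneg_right ?_ hx0
      have h2 := hb ((x:ℂ) * Complex.exp (φ * Complex.I))
        (by rw [mem_closedBall_zero_iff, hn]; exact hxR)
      rwa [hn] at h2) convex_univ (mem_univ _) (mem_univ _)
  rwa [Real.norm_eq_abs] at h

theorem chord_arc_rad {F : Type} [NormedAddCommGroup F] [NormedSpace ℝ F] (ε R c : ℝ)
    (hε : 0 < ε)
    (Y : ℂ → F) (hY : ∀ t ∈ closedBall (0 : ℂ) R, DifferentiableAt ℝ Y t)
    (hb : ∀ t ∈ closedBall (0 : ℂ) R, ‖fderiv ℝ Y t‖ ≤ c / (ε ^ 2 + ‖t‖ ^ 2))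
    (w : ℂ) (hw : ‖w‖ = 1) (r r' : ℝ) (h0 : 0 ≤ r) (hrr : r ≤ r') (hR : r' ≤ R) :
    ‖Y ((r':ℂ) * w) - Y ((r:ℂ) * w)‖ ≤
      c / ε * (Real.arctan (r' / ε) - Real.arctan (r / ε)) := by
  have hn : ∀ x : ℝ, 0 ≤ x → ‖(x:ℂ) * w‖ = x := by
    intro x hx
    rw [norm_mul, hw, mul_one, Complex.norm_real, Real.norm_of_nonneg hx]
  have hd : ∀ x : ℝ, 0 ≤ x → x ≤ R → HasDerivAt (fun x : ℝ => Y ((x:ℂ) * w))
      (fderiv ℝ Y ((x:ℂ) * w) w) x := by
    intro x hx hxR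
    have h1 : HasDerivAt (fun x : ℝ => (x:ℂ) * w) w x := by
      have h2 : HasDerivAt (fun z : ℂ => z * w) (1 * w) (x : ℂ) :=
        (hasDerivAt_id (x:ℂ)).mul_const w
      rw [one_mul] at h2
      exact h2.comp_ofReal
    have h3 : DifferentiableAt ℝ Y ((x:ℂ) * w) :=
      hY _ (by rw [mem_closedBall_zero_iff, hn x hx]; exact hxR)
    exact h3.hasFDerivAt.comp_hasDerivAt x h1
  have hB : ∀ x : ℝ, HasDerivAt
      (fun x => c / ε * (Real.arctan (x / ε) - Real.arctan (r / ε)))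
      (c / (ε ^ 2 + x ^ 2)) x := by
    intro x
    have h1 : HasDerivAt (fun x : ℝ => x / ε) (1 / ε) x := (hasDerivAt_id x).div_const ε
    have h2 := ((h1.arctan).sub_const (Real.arctan (r / ε))).const_mul (c / ε)
    have e : c / (ε ^ 2 + x ^ 2) = c / ε * (1 / (1 + (x / ε) ^ 2) * (1 / ε)) := by
      have e1 : ε ^ 2 + x ^ 2 ≠ 0 := by positivity
      have e2 : 1 + (x / ε) ^ 2 ≠ 0 := by positivity
      field_simp
    rw [e]
    exact h2
  refine image_norm_le_of_norm_deriv_right_le_deriv_boundary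
    (f := fun x : ℝ => Y ((x:ℂ) * w) - Y ((r:ℂ) * w))
    (f' := fun x : ℝ => fderiv ℝ Y ((x:ℂ) * w) w) (a := r) (b := r') ?_ ?_ ?_ hB ?_
    (right_mem_Icc.2 hrr)
  · intro x hx
    exact ((hd x (h0.trans hx.1) (hx.2.trans hR)).sub_const _).continuousAt.continuousWithinAt
  · intro x hx
    exact ((hd x (h0.trans hx.1) (hx.2.le.trans hR)).sub_const _).hasDerivWithinAt
  · simp
  · intro x hx
    have hx0 : 0 ≤ x := h0.trans hx.1
    refine (ContinuousLinearMap.le_opNorm _ _).trans ?_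
    rw [hw, mul_one]
    have h2 := hb ((x:ℂ) * w) (by rw [mem_closedBall_zero_iff, hn x hx0]; exact hx.2.le.trans hR)
    rwa [hn x hx0] at h2

theorem chord_arc_sqrt (ε r : ℝ) (hε : 0 < ε) :
    Real.sqrt (1 + (r / ε) ^ 2) = Real.sqrt (ε ^ 2 + r ^ 2) / ε := by
  have h1 : 1 + (r / ε) ^ 2 = (ε ^ 2 + r ^ 2) / ε ^ 2 := by
    field_simp
  rw [h1, Real.sqrt_div' _ (by positivity), Real.sqrt_sq hε.le]

theorem chord_arc_rad' {F : Type} [NormedAddCommGroup F] [NormedSpace ℝ F] (ε R c : ℝ)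
    (hε : 0 < ε) (hc : 0 ≤ c)
    (Y : ℂ → F) (hY : ∀ t ∈ closedBall (0 : ℂ) R, DifferentiableAt ℝ Y t)
    (hb : ∀ t ∈ closedBall (0 : ℂ) R, ‖fderiv ℝ Y t‖ ≤ c / (ε ^ 2 + ‖t‖ ^ 2))
    (w : ℂ) (hw : ‖w‖ = 1) (r r' : ℝ) (h0 : 0 ≤ r) (hrr : r ≤ r') (hR : r' ≤ R) :
    ‖Y ((r':ℂ) * w) - Y ((r:ℂ) * w)‖ ≤ Real.pi / 2 * c * (r' - r) /
      (Real.sqrt (ε ^ 2 + r ^ 2) * Real.sqrt (ε ^ 2 + r' ^ 2)) := by
  refine (chord_arc_rad ε R c hε Y hY hb w hw r r' h0 hrr hR).trans ?_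
  set Δ := Real.arctan (r' / ε) - Real.arctan (r / ε) with hΔ
  have hΔ0 : 0 ≤ Δ := by
    rw [hΔ, sub_nonneg]
    exact Real.arctan_strictMono.monotone (by gcongr)
  have hΔ1 : Δ ≤ Real.pi / 2 := by
    have h1 := (Real.arctan_lt_pi_div_two (r' / ε)).le
    have h2 : 0 ≤ Real.arctan (r / ε) := Real.arctan_nonneg.2 (by positivity)
    linarith
  have hj := Real.mul_le_sin hΔ0 hΔ1
  have hs1 : 0 < Real.sqrt (ε ^ 2 + r ^ 2) := Real.sqrt_pos.2 (by positivity)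
  have hs2 : 0 < Real.sqrt (ε ^ 2 + r' ^ 2) := Real.sqrt_pos.2 (by positivity)
  have hsin : Real.sin Δ = ε * (r' - r) /
      (Real.sqrt (ε ^ 2 + r ^ 2) * Real.sqrt (ε ^ 2 + r' ^ 2)) := by
    rw [hΔ, Real.sin_sub, Real.sin_arctan, Real.cos_arctan, Real.sin_arctan, Real.cos_arctan,
      chord_arc_sqrt ε r hε, chord_arc_sqrt ε r' hε]
    field_simp
  have hpi := Real.pi_pos
  have h1 : Δ ≤ Real.pi / 2 * Real.sin Δ := by
    have h2 : Real.pi / 2 * (2 / Real.pi * Δ) = Δ := by field_simp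
    calc Δ = Real.pi / 2 * (2 / Real.pi * Δ) := h2.symm
      _ ≤ Real.pi / 2 * Real.sin Δ := mul_le_mul_of_nonneg_left hj (by positivity)
  calc c / ε * Δ ≤ c / ε * (Real.pi / 2 * Real.sin Δ) :=
        mul_le_mul_of_nonneg_left h1 (by positivity)
    _ = Real.pi / 2 * c * (r' - r) /
      (Real.sqrt (ε ^ 2 + r ^ 2) * Real.sqrt (ε ^ 2 + r' ^ 2)) := by
        rw [hsin]
        field_simp

theorem chord_arc_polar (s t : ℂ) : ∃ a b : ℝ, s = (‖s‖ : ℂ) * Complex.exp (a * Complex.I) ∧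
    t = (‖t‖ : ℂ) * Complex.exp (b * Complex.I) ∧ |a - b| ≤ Real.pi := by
  by_cases hs : s = 0
  · refine ⟨Complex.arg t, Complex.arg t, by simp [hs], (Complex.norm_mul_exp_arg_mul_I t).symm, ?_⟩
    simp [Real.pi_pos.le]
  · refine ⟨Complex.arg s, Complex.arg s + Complex.arg (t / s),
      (Complex.norm_mul_exp_arg_mul_I s).symm, ?_, ?_⟩
    · have h1 := Complex.norm_mul_exp_arg_mul_I s
      have h2 := Complex.norm_mul_exp_arg_mul_I (t / s)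
      have h3 : t = s * (t / s) := by field_simp
      have h4 : (‖t‖ : ℂ) = (‖s‖ : ℂ) * (‖t / s‖ : ℂ) := by
        rw [← Complex.ofReal_mul, ← norm_mul, ← h3]
      rw [h4, Complex.ofReal_add, add_mul, Complex.exp_add]
      calc t = s * (t / s) := h3
        _ = ((‖s‖ : ℂ) * Complex.exp (Complex.arg s * Complex.I)) *
            ((‖t / s‖ : ℂ) * Complex.exp (Complex.arg (t / s) * Complex.I)) := by rw [h1, h2]
        _ = _ := by ring
    · have h5 : Complex.arg s - (Complex.arg s + Complex.arg (t / s)) = - Complex.arg (t / s) := by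
        ring
      rw [h5, abs_neg]
      exact Complex.abs_arg_le_pi _

theorem chord_arc_dist (r r' a b : ℝ) (h0 : 0 ≤ r) (h0' : 0 ≤ r') (hab : |a - b| ≤ Real.pi) :
    Real.sqrt (r * r') * |a - b| ≤ Real.pi / 2 *
      ‖(r:ℂ) * Complex.exp (a * Complex.I) - (r':ℂ) * Complex.exp (b * Complex.I)‖ := by
  have hpi := Real.pi_pos
  have hsq : ‖(r:ℂ) * Complex.exp (a * Complex.I) - (r':ℂ) * Complex.exp (b * Complex.I)‖ ^ 2 =
      (r - r') ^ 2 + 4 * (r * r') * Real.sin (|a - b| / 2) ^ 2 := by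
    rw [← Complex.normSq_eq_norm_sq, Complex.normSq_apply]
    have e1 : ((r:ℂ) * Complex.exp (a * Complex.I) - (r':ℂ) * Complex.exp (b * Complex.I)).re =
        r * Real.cos a - r' * Real.cos b := by
      simp [Complex.exp_ofReal_mul_I_re, Complex.exp_ofReal_mul_I_im]
    have e2 : ((r:ℂ) * Complex.exp (a * Complex.I) - (r':ℂ) * Complex.exp (b * Complex.I)).im =
        r * Real.sin a - r' * Real.sin b := by
      simp [Complex.exp_ofReal_mul_I_re, Complex.exp_ofReal_mul_I_im]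
    rw [e1, e2]
    have e3 : Real.sin (|a - b| / 2) ^ 2 = 1 / 2 - Real.cos (a - b) / 2 := by
      rw [Real.sin_sq_eq_half_sub]
      have : 2 * (|a - b| / 2) = |a - b| := by ring
      rw [this, Real.cos_abs]
    rw [e3, Real.cos_sub]
    linear_combination r ^ 2 * (Real.sin_sq_add_cos_sq a) + r' ^ 2 * (Real.sin_sq_add_cos_sq b)
  have hj : 2 / Real.pi * (|a - b| / 2) ≤ Real.sin (|a - b| / 2) :=
    Real.mul_le_sin (by positivity) (by linarith)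
  have hj' : |a - b| ≤ Real.pi * Real.sin (|a - b| / 2) := by
    have h2 : Real.pi * (2 / Real.pi * (|a - b| / 2)) = |a - b| := by field_simp
    calc |a - b| = Real.pi * (2 / Real.pi * (|a - b| / 2)) := h2.symm
      _ ≤ Real.pi * Real.sin (|a - b| / 2) := mul_le_mul_of_nonneg_left hj hpi.le
  have hs0 : 0 ≤ Real.sin (|a - b| / 2) := le_trans (by positivity) hj
  have hrr : 0 ≤ r * r' := mul_nonneg h0 h0'
  apply le_of_sq_le_sq
  · rw [mul_pow, mul_pow, Real.sq_sqrt hrr, hsq]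
    have h3 : |a - b| ^ 2 ≤ (Real.pi * Real.sin (|a - b| / 2)) ^ 2 :=
      pow_le_pow_left₀ (abs_nonneg _) hj' 2
    have h4 := mul_le_mul_of_nonneg_left h3 hrr
    have h5 : 0 ≤ (Real.pi / 2) ^ 2 * (r - r') ^ 2 := by positivity
    nlinarith
  · positivity

theorem chord_arc_wlog {F : Type} [NormedAddCommGroup F] [NormedSpace ℝ F] (ε R c : ℝ) (hε : 0 < ε)
    (hc : 0 ≤ c) (Y : ℂ → F) (hY : ∀ t ∈ closedBall (0 : ℂ) R, DifferentiableAt ℝ Y t)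
    (hb : ∀ t ∈ closedBall (0 : ℂ) R, ‖fderiv ℝ Y t‖ ≤ c / (ε ^ 2 + ‖t‖ ^ 2)) :
    ∀ s ∈ closedBall (0 : ℂ) R, ∀ t ∈ closedBall (0 : ℂ) R, ‖s‖ ≤ ‖t‖ →
      ‖Y s - Y t‖ ≤ Real.pi * c * ‖s - t‖ / (Real.sqrt (ε ^ 2 + ‖s‖ ^ 2) *
        Real.sqrt (ε ^ 2 + ‖t‖ ^ 2)) := by
  intro s hs t ht hst
  rw [mem_closedBall_zero_iff] at hs ht
  obtain ⟨a, b, ha, hb', hab⟩ := chord_arc_polar s t
  have hdist := chord_arc_dist ‖s‖ ‖t‖ a b (norm_nonneg _) (norm_nonneg _) hab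
  rw [← ha, ← hb'] at hdist
  have hrad0 : ‖t‖ - ‖s‖ ≤ ‖s - t‖ := by
    rw [norm_sub_rev]; exact norm_sub_norm_le _ _
  have hpi := Real.pi_pos
  have hs1 : 0 < Real.sqrt (ε ^ 2 + ‖s‖ ^ 2) := Real.sqrt_pos.2 (by positivity)
  have hs2 : 0 < Real.sqrt (ε ^ 2 + ‖t‖ ^ 2) := Real.sqrt_pos.2 (by positivity)
  have hS1 : Real.sqrt (ε ^ 2 + ‖s‖ ^ 2) ^ 2 = ε ^ 2 + ‖s‖ ^ 2 := Real.sq_sqrt (by positivity)
  have hS2 : Real.sqrt (ε ^ 2 + ‖t‖ ^ 2) ^ 2 = ε ^ 2 + ‖t‖ ^ 2 := Real.sq_sqrt (by positivity)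
  have hrr : 0 ≤ ‖s‖ * ‖t‖ := by positivity
  have hR1 := Real.sq_sqrt hrr
  set r := ‖s‖ with hr
  set r' := ‖t‖ with hr'
  have hr0 : 0 ≤ r := norm_nonneg _
  have hr0' : 0 ≤ r' := norm_nonneg _
  set q1 := Real.sqrt (ε ^ 2 + r ^ 2) with hq1
  set q2 := Real.sqrt (ε ^ 2 + r' ^ 2) with hq2
  -- radial part
  have hradw : ∀ w : ℂ, ‖w‖ = 1 → ‖Y ((r':ℂ) * w) - Y ((r:ℂ) * w)‖ ≤
      Real.pi / 2 * c * ‖s - t‖ / (q1 * q2) := by
    intro w hw
    refine (chord_arc_rad' ε R c hε hc Y hY hb w hw r r' hr0 hst ht).trans ?_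
    gcongr
  -- arc part
  have harc : ∀ x : ℝ, 0 ≤ x → x ≤ R → x / (ε ^ 2 + x ^ 2) ≤ Real.sqrt (r * r') / (q1 * q2) →
      ‖Y ((x:ℂ) * Complex.exp (a * Complex.I)) - Y ((x:ℂ) * Complex.exp (b * Complex.I))‖ ≤
      Real.pi / 2 * c * ‖s - t‖ / (q1 * q2) := by
    intro x hx0 hxR hx
    refine (chord_arc_arc ε R c Y hY hb x hx0 hxR a b).trans ?_
    calc c / (ε ^ 2 + x ^ 2) * x * |a - b| = c * (x / (ε ^ 2 + x ^ 2)) * |a - b| := by ring
      _ ≤ c * (Real.sqrt (r * r') / (q1 * q2)) * |a - b| := by gcongr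
      _ = c / (q1 * q2) * (Real.sqrt (r * r') * |a - b|) := by ring
      _ ≤ c / (q1 * q2) * (Real.pi / 2 * ‖s - t‖) :=
          mul_le_mul_of_nonneg_left hdist (by positivity)
      _ = Real.pi / 2 * c * ‖s - t‖ / (q1 * q2) := by ring
  have hna : ‖Complex.exp (a * Complex.I)‖ = 1 := Complex.norm_exp_ofReal_mul_I a
  have hnb : ‖Complex.exp (b * Complex.I)‖ = 1 := Complex.norm_exp_ofReal_mul_I b
  have hfinal : ∀ p q : ℝ, p ≤ Real.pi / 2 * c * ‖s - t‖ / (q1 * q2) →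
      q ≤ Real.pi / 2 * c * ‖s - t‖ / (q1 * q2) →
      p + q ≤ Real.pi * c * ‖s - t‖ / (q1 * q2) := by
    intro p q hp hq
    have : Real.pi * c * ‖s - t‖ / (q1 * q2) = Real.pi / 2 * c * ‖s - t‖ / (q1 * q2) +
      Real.pi / 2 * c * ‖s - t‖ / (q1 * q2) := by ring
    linarith
  by_cases hcase : r * r' ≤ ε ^ 2
  · -- arc at radius r
    have hx : r / (ε ^ 2 + r ^ 2) ≤ Real.sqrt (r * r') / (q1 * q2) := by
      rw [div_le_div_iff₀ (by positivity) (by positivity)]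
      apply le_of_sq_le_sq
      · have : (Real.sqrt (r * r') * (ε ^ 2 + r ^ 2)) ^ 2 = (r * r') * (ε ^ 2 + r ^ 2) ^ 2 := by
          rw [mul_pow, hR1]
        rw [this]
        have : (r * (q1 * q2)) ^ 2 = r ^ 2 * ((ε ^ 2 + r ^ 2) * (ε ^ 2 + r' ^ 2)) := by
          rw [mul_pow, mul_pow, hS1, hS2]
        rw [this]
        have e1 : (r * r') * (ε ^ 2 + r ^ 2) ^ 2 -
            r ^ 2 * ((ε ^ 2 + r ^ 2) * (ε ^ 2 + r' ^ 2)) =
            r * (ε ^ 2 + r ^ 2) * ((r' - r) * (ε ^ 2 - r * r')) := by ring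
        have e2 : 0 ≤ r * (ε ^ 2 + r ^ 2) * ((r' - r) * (ε ^ 2 - r * r')) :=
          mul_nonneg (by positivity) (mul_nonneg (by linarith) (by linarith))
        linarith
      · positivity
    have h1 := harc r hr0 hs hx
    have h2 := hradw _ hnb
    rw [← ha] at h1
    rw [← hb'] at h2
    calc ‖Y s - Y t‖ = ‖(Y s - Y ((r:ℂ) * Complex.exp (b * Complex.I))) +
          (Y ((r:ℂ) * Complex.exp (b * Complex.I)) - Y t)‖ := by congr 1; abel
      _ ≤ ‖Y s - Y ((r:ℂ) * Complex.exp (b * Complex.I))‖ +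
          ‖Y ((r:ℂ) * Complex.exp (b * Complex.I)) - Y t‖ := norm_add_le _ _
      _ ≤ _ := by
          apply hfinal _ _ h1
          rw [norm_sub_rev]; exact h2
  · have hcase' : ε ^ 2 ≤ r * r' := (not_le.1 hcase).le
    have hx : r' / (ε ^ 2 + r' ^ 2) ≤ Real.sqrt (r * r') / (q1 * q2) := by
      rw [div_le_div_iff₀ (by positivity) (by positivity)]
      apply le_of_sq_le_sq
      · have : (Real.sqrt (r * r') * (ε ^ 2 + r' ^ 2)) ^ 2 = (r * r') * (ε ^ 2 + r' ^ 2) ^ 2 := by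
          rw [mul_pow, hR1]
        rw [this]
        have : (r' * (q1 * q2)) ^ 2 = r' ^ 2 * ((ε ^ 2 + r ^ 2) * (ε ^ 2 + r' ^ 2)) := by
          rw [mul_pow, mul_pow, hS1, hS2]
        rw [this]
        have e1 : (r * r') * (ε ^ 2 + r' ^ 2) ^ 2 -
            r' ^ 2 * ((ε ^ 2 + r ^ 2) * (ε ^ 2 + r' ^ 2)) =
            r' * (ε ^ 2 + r' ^ 2) * ((r' - r) * (r * r' - ε ^ 2)) := by ring
        have e2 : 0 ≤ r' * (ε ^ 2 + r' ^ 2) * ((r' - r) * (r * r' - ε ^ 2)) :=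
          mul_nonneg (by positivity) (mul_nonneg (by linarith) (by linarith))
        linarith
      · positivity
    have h1 := harc r' hr0' ht hx
    have h2 := hradw _ hna
    rw [← hb'] at h1
    rw [← ha] at h2
    calc ‖Y s - Y t‖ = ‖(Y s - Y ((r':ℂ) * Complex.exp (a * Complex.I))) +
          (Y ((r':ℂ) * Complex.exp (a * Complex.I)) - Y t)‖ := by congr 1; abel
      _ ≤ ‖Y s - Y ((r':ℂ) * Complex.exp (a * Complex.I))‖ +
          ‖Y ((r':ℂ) * Complex.exp (a * Complex.I)) - Y t‖ := norm_add_le _ _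
      _ ≤ _ := by
          apply hfinal _ _ _ h1
          rw [norm_sub_rev]; exact h2

/-- JOB H1: chord-arc estimate for the spherical metric. -/
theorem chord_arc {F : Type} [NormedAddCommGroup F] [NormedSpace ℝ F] (ε R c : ℝ) (hε : 0 < ε)
    (hc : 0 ≤ c) (Y : ℂ → F) (hY : ∀ t ∈ closedBall (0 : ℂ) R, DifferentiableAt ℝ Y t)
    (hb : ∀ t ∈ closedBall (0 : ℂ) R, ‖fderiv ℝ Y t‖ ≤ c / (ε ^ 2 + ‖t‖ ^ 2)) :
    ∀ s ∈ closedBall (0 : ℂ) R, ∀ t ∈ closedBall (0 : ℂ) R,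
      ‖Y s - Y t‖ ≤ Real.pi * c * ‖s - t‖ / (Real.sqrt (ε ^ 2 + ‖s‖ ^ 2) *
        Real.sqrt (ε ^ 2 + ‖t‖ ^ 2)) := by
  intro s hs t ht
  rcases le_total ‖s‖ ‖t‖ with h | h
  · exact chord_arc_wlog ε R c hε hc Y hY hb s hs t ht h
  · have := chord_arc_wlog ε R c hε hc Y hY hb t ht s hs h
    rw [norm_sub_rev, norm_sub_rev s t, mul_comm (Real.sqrt (ε ^ 2 + ‖s‖ ^ 2))]
    exact this

end Pool.Agent.Helper87.CMC
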