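import Mathlib

set_option autoImplicit false

/-! Abstract package: a Banach star-algebra of 2x2 matrix loops with the Iwahori splitting. -/

namespace Pool.Agent.Helper87.CMC

open scoped ComplexConjugate

/-- `A` is thought of as the algebra of `2 × 2` matrix valued Laurent series in a variable `T`
(with inverse `S`), absolutely convergent with weights `2^|n|`.  `E i j` are the constant matrix
units, `st` the involution `T ↦ T⁻¹`, conjugate transpose; `cj` conjugates coefficients;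
`ev`, `dv` are the entries of the value and of the derivative `T d/dT` at `T = 1`;
`Pp, P0, Pm` the projections on `span {E 1 0, T^n (n ≥ 1)}`, on constant diagonal matrices and on
`span {E 0 1, T^n (n ≤ -1)}`. -/
structure LoopAlg (A : Type) [NormedRing A] [NormedAlgebra ℂ A] where
  E : Fin 2 → Fin 2 → A
  E_mul : ∀ i j k l, E i j * E k l = if j = k then E i l else 0
  E_one : E 0 0 + E 1 1 = 1
  S : A
  T : A
  S_mul_T : S * T = 1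
  T_mul_S : T * S = 1
  S_comm : ∀ i j, S * E i j = E i j * S
  T_comm : ∀ i j, T * E i j = E i j * T
  st : A →L[ℝ] A
  st_mul : ∀ x y, st (x * y) = st y * st x
  st_st : ∀ x, st (st x) = x
  st_smul : ∀ (c : ℂ) x, st (c • x) = (conj c) • st x
  st_E : ∀ i j, st (E i j) = E j i
  st_S : st S = T
  cj : A →L[ℝ] A
  cj_mul : ∀ x y, cj (x * y) = cj x * cj y
  cj_cj : ∀ x, cj (cj x) = x
  cj_smul : ∀ (c : ℂ) x, cj (c • x) = (conj c) • cj x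
  cj_E : ∀ i j, cj (E i j) = E i j
  cj_S : cj S = S
  cj_T : cj T = T
  cj_st : ∀ x, cj (st x) = st (cj x)
  Pp : A →L[ℂ] A
  P0 : A →L[ℂ] A
  Pm : A →L[ℂ] A
  P_sum : ∀ x, Pm x + P0 x + Pp x = x
  Pp_Pp : ∀ x, Pp (Pp x) = Pp x
  Pp_P0 : ∀ x, Pp (P0 x) = 0
  Pp_Pm : ∀ x, Pp (Pm x) = 0
  P0_Pp : ∀ x, P0 (Pp x) = 0
  P0_P0 : ∀ x, P0 (P0 x) = P0 x
  P0_Pm : ∀ x, P0 (Pm x) = 0
  Pm_Pp : ∀ x, Pm (Pp x) = 0
  Pm_P0 : ∀ x, Pm (P0 x) = 0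
  Pm_Pm : ∀ x, Pm (Pm x) = Pm x
  st_Pp : ∀ x, st (Pp x) = Pm (st x)
  st_P0 : ∀ x, st (P0 x) = P0 (st x)
  st_Pm : ∀ x, st (Pm x) = Pp (st x)
  cj_Pp : ∀ x, cj (Pp x) = Pp (cj x)
  cj_P0 : ∀ x, cj (P0 x) = P0 (cj x)
  cj_Pm : ∀ x, cj (Pm x) = Pm (cj x)
  d : Fin 2 → A →L[ℂ] ℂ
  P0_eq : ∀ x, P0 x = d 0 x • E 0 0 + d 1 x • E 1 1
  P0_E : ∀ i, P0 (E i i) = E i i
  Pp_E : Pp (E 1 0) = E 1 0
  Pp_TE : Pp (T * E 0 1) = T * E 0 1
  Pm_E : Pm (E 0 1) = E 0 1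
  Pm_SE : Pm (S * E 1 0) = S * E 1 0
  Pp_mul : ∀ x y, Pp x = x → Pp y = y → Pp (x * y) = x * y
  Pp_E_mul : ∀ i x, Pp x = x → Pp (E i i * x) = E i i * x
  Pp_mul_E : ∀ i x, Pp x = x → Pp (x * E i i) = x * E i i
  low1 : ∀ x, Pp x = x → Pm (x * E 0 1) = 0
  low2 : ∀ x, Pp x = x → Pm (E 0 1 * x) = 0
  low3 : ∀ x, Pp x = x → Pm (x * (S * E 1 0)) = 0
  low4 : ∀ x, Pp x = x → Pm (S * E 1 0 * x) = 0
  ev : Fin 2 → Fin 2 → A →L[ℂ] ℂ
  ev_mul : ∀ i j x y, ev i j (x * y) = ev i 0 x * ev 0 j y + ev i 1 x * ev 1 j y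
  ev_E : ∀ i j k l, ev i j (E k l) = if i = k ∧ j = l then 1 else 0
  ev_S : ∀ i j, ev i j S = if i = j then 1 else 0
  ev_T : ∀ i j, ev i j T = if i = j then 1 else 0
  ev_st : ∀ i j x, ev i j (st x) = conj (ev j i x)
  ev_cj : ∀ i j x, ev i j (cj x) = conj (ev i j x)
  dv : Fin 2 → Fin 2 → A →L[ℂ] ℂ
  dv_mul : ∀ i j x y, dv i j (x * y) = dv i 0 x * ev 0 j y + dv i 1 x * ev 1 j y
    + (ev i 0 x * dv 0 j y + ev i 1 x * dv 1 j y)
  dv_E : ∀ i j k l, dv i j (E k l) = 0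
  dv_S : ∀ i j, dv i j S = if i = j then -1 else 0
  dv_T : ∀ i j, dv i j T = if i = j then 1 else 0
  dv_st : ∀ i j x, dv i j (st x) = - conj (dv j i x)
  dv_cj : ∀ i j x, dv i j (cj x) = conj (dv i j x)

end Pool.Agent.Helper87.CMC
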