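import Mathlib
import Pool.Agent.Helper87.CMC.Defs

set_option autoImplicit false

namespace Pool.Agent.Helper87.CMC

open scoped ComplexConjugate
open Set Metric
open scoped ContDiff

section derivative_form_aux

variable {A : Type} [NormedRing A] [NormedAlgebra ℂ A]

theorem derivative_form_Pm_of_Pp (L : LoopAlg A) {u : A} (h : L.Pp u = u) : L.Pm u = 0 := by
  rw [← h, L.Pm_Pp]

theorem derivative_form_Pm_E (L : LoopAlg A) (i : Fin 2) : L.Pm (L.E i i) = 0 := by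
  rw [← L.P0_E i, L.Pm_P0]

theorem derivative_form_split (L : LoopAlg A) {x : A} (hx : L.Pm x = 0) :
    x = (L.d 0 x • L.E 0 0 + L.d 1 x • L.E 1 1) + L.Pp x := by
  have h := L.P_sum x
  rw [hx, zero_add, L.P0_eq] at h
  exact h.symm

/-- the elements without negative part form a subalgebra -/
theorem derivative_form_Nmul (L : LoopAlg A) {x y : A} (hx : L.Pm x = 0) (hy : L.Pm y = 0) :
    L.Pm (x * y) = 0 := by
  have ex := derivative_form_split L hx
  have ey := derivative_form_split L hy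
  set a := L.d 0 x
  set b := L.d 1 x
  set c := L.d 0 y
  set e := L.d 1 y
  set u := L.Pp x with hu
  set w := L.Pp y with hw
  have hu' : L.Pp u = u := L.Pp_Pp x
  have hw' : L.Pp w = w := L.Pp_Pp y
  have e00 : L.E 0 0 * L.E 0 0 = L.E 0 0 := by rw [L.E_mul]; simp
  have e11 : L.E 1 1 * L.E 1 1 = L.E 1 1 := by rw [L.E_mul]; simp
  have e01 : L.E 0 0 * L.E 1 1 = 0 := by rw [L.E_mul]; simp
  have e10 : L.E 1 1 * L.E 0 0 = 0 := by rw [L.E_mul]; simp
  have m1 : L.Pm (L.E 0 0 * w) = 0 := derivative_form_Pm_of_Pp L (L.Pp_E_mul 0 w hw')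
  have m2 : L.Pm (L.E 1 1 * w) = 0 := derivative_form_Pm_of_Pp L (L.Pp_E_mul 1 w hw')
  have m3 : L.Pm (u * L.E 0 0) = 0 := derivative_form_Pm_of_Pp L (L.Pp_mul_E 0 u hu')
  have m4 : L.Pm (u * L.E 1 1) = 0 := derivative_form_Pm_of_Pp L (L.Pp_mul_E 1 u hu')
  have m5 : L.Pm (u * w) = 0 := derivative_form_Pm_of_Pp L (L.Pp_mul u w hu' hw')
  have key : x * y = (a * c) • L.E 0 0 + (b * e) • L.E 1 1 + a • (L.E 0 0 * w) +
      b • (L.E 1 1 * w) + c • (u * L.E 0 0) + e • (u * L.E 1 1) + u * w := by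
    rw [ex, ey]
    simp only [add_mul, mul_add, smul_mul_assoc, mul_smul_comm, e00, e11, e01, e10,
      smul_zero, add_zero, zero_add]
    module
  rw [key]
  simp only [map_add, map_smul, derivative_form_Pm_E, m1, m2, m3, m4, m5, smul_zero, add_zero]

/-- the algebraic part -/
theorem derivative_form_alg (L : LoopAlg A) (Θ X P D Dx Z : A) (ν m0 m1 : ℝ) (p q v : ℂ)
    (c0 c1 : ℂ)
    (hD : D = Θ * ((v • (p • L.E 0 1 + q • (L.S * L.E 1 0)) + Z) * X + Dx))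
    (hZ : L.Pm Z = 0) (hX1 : L.Pp (X - 1) = X - 1) (hDx : L.Pp Dx = Dx)
    (hν0 : 0 < ν) (hm00 : 0 < m0) (hm10 : 0 < m1)
    (hP : L.st Θ * Θ = (ν : ℂ) • P)
    (hPX : L.Pp (P * X) = 0)
    (hPX0 : L.P0 (P * X) = (m0 : ℂ) • L.E 0 0 + (m1 : ℂ) • L.E 1 1)
    (hM : L.st X * P * X = (m0 : ℂ) • L.E 0 0 + (m1 : ℂ) • L.E 1 1)
    (hu : IsUnit (Θ * X))
    (hder : L.st D * (Θ * X) + L.st (Θ * X) * D = c0 • L.E 0 0 + c1 • L.E 1 1) :
    ∃ δ0 δ1 : ℂ, D = Θ * X *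
        (v • (p • L.E 0 1 + q • (L.S * L.E 1 0))
          - (conj v) • (((m0 / m1 : ℝ) : ℂ) • (conj p) • L.E 1 0
            + ((m1 / m0 : ℝ) : ℂ) • (conj q) • (L.T * L.E 0 1))
          + δ0 • L.E 0 0 + δ1 • L.E 1 1) := by
  have hνc : (ν : ℂ) ≠ 0 := by exact_mod_cast hν0.ne'
  have hm0c : (m0 : ℂ) ≠ 0 := by exact_mod_cast hm00.ne'
  have hm1c : (m1 : ℂ) ≠ 0 := by exact_mod_cast hm10.ne'
  -- multiplication table
  have e0000 : L.E 0 0 * L.E 0 0 = L.E 0 0 := by rw [L.E_mul]; simp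
  have e1111 : L.E 1 1 * L.E 1 1 = L.E 1 1 := by rw [L.E_mul]; simp
  have e0011 : L.E 0 0 * L.E 1 1 = 0 := by rw [L.E_mul]; simp
  have e1100 : L.E 1 1 * L.E 0 0 = 0 := by rw [L.E_mul]; simp
  have e0001 : L.E 0 0 * L.E 0 1 = L.E 0 1 := by rw [L.E_mul]; simp
  have e1101 : L.E 1 1 * L.E 0 1 = 0 := by rw [L.E_mul]; simp
  have e0010 : L.E 0 0 * L.E 1 0 = 0 := by rw [L.E_mul]; simp
  have e1110 : L.E 1 1 * L.E 1 0 = L.E 1 0 := by rw [L.E_mul]; simp
  have s0 : L.E 0 0 * (L.S * L.E 1 0) = 0 := by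
    rw [← mul_assoc, ← L.S_comm, mul_assoc, e0010, mul_zero]
  have s1 : L.E 1 1 * (L.S * L.E 1 0) = L.S * L.E 1 0 := by
    rw [← mul_assoc, ← L.S_comm, mul_assoc, e1110]
  have t0 : L.E 0 0 * (L.T * L.E 0 1) = L.T * L.E 0 1 := by
    rw [← mul_assoc, ← L.T_comm, mul_assoc, e0001]
  have t1 : L.E 1 1 * (L.T * L.E 0 1) = 0 := by
    rw [← mul_assoc, ← L.T_comm, mul_assoc, e1101, mul_zero]
  set B1 : A := p • L.E 0 1 + q • (L.S * L.E 1 0) with hB1
  set M : A := (m0 : ℂ) • L.E 0 0 + (m1 : ℂ) • L.E 1 1 with hMdef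
  have hstM : L.st M = M := by
    rw [hMdef, map_add, L.st_smul, L.st_smul, L.st_E, L.st_E, Complex.conj_ofReal,
      Complex.conj_ofReal]
  -- st P = P
  have hstP : L.st P = P := by
    have h1 : L.st (L.st Θ * Θ) = L.st Θ * Θ := by rw [L.st_mul, L.st_st]
    rw [hP, L.st_smul, Complex.conj_ofReal] at h1
    exact (smul_right_injective A hνc) h1
  set Q : A := L.Pp (L.st (P * X)) with hQ
  have hQQ : L.Pp Q = Q := L.Pp_Pp _
  have hstPX : L.st X * P = M + Q := by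
    have h1 : L.st (P * X) = L.st X * P := by rw [L.st_mul, hstP]
    have h2 : P * X = L.Pm (P * X) + M := by
      have := L.P_sum (P * X)
      rw [hPX, hPX0, add_zero] at this
      exact this.symm
    rw [← h1]
    conv_lhs => rw [h2]
    rw [map_add, hstM, L.st_Pm, add_comm]
  -- non negative elements
  have nE0 := derivative_form_Pm_E L 0
  have nE1 := derivative_form_Pm_E L 1
  have n1 : L.Pm (1 : A) = 0 := by rw [← L.E_one, map_add, nE0, nE1, add_zero]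
  have nX1 : L.Pm (X - 1) = 0 := derivative_form_Pm_of_Pp L hX1
  have nX : L.Pm X = 0 := by
    have : X = (X - 1) + 1 := by abel
    rw [this, map_add, nX1, n1, add_zero]
  have nDx : L.Pm Dx = 0 := derivative_form_Pm_of_Pp L hDx
  have nM : L.Pm M = 0 := by rw [hMdef, map_add, map_smul, map_smul, nE0, nE1]; simp
  have nQ : L.Pm Q = 0 := derivative_form_Pm_of_Pp L hQQ
  have nQB : L.Pm (Q * B1) = 0 := by
    rw [hB1, mul_add, mul_smul_comm, mul_smul_comm, map_add, map_smul, map_smul, L.low1 Q hQQ,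
      L.low3 Q hQQ]
    simp
  have nBX : L.Pm (B1 * (X - 1)) = 0 := by
    rw [hB1, add_mul, smul_mul_assoc, smul_mul_assoc, map_add, map_smul, map_smul,
      L.low2 _ hX1, L.low4 _ hX1]
    simp
  have nMQ : L.Pm (M + Q) = 0 := by rw [map_add, nM, nQ, add_zero]
  set w : A := M * B1 with hw
  set z : A := v • (Q * B1) + (M + Q) * (v • (B1 * (X - 1)) + Z * X + Dx) with hz
  have nz : L.Pm z = 0 := by
    have h1 : L.Pm (v • (B1 * (X - 1)) + Z * X + Dx) = 0 := by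
      rw [map_add, map_add, map_smul, nBX, derivative_form_Nmul L hZ nX, nDx]; simp
    rw [hz, map_add, map_smul, nQB, derivative_form_Nmul L nMQ h1]; simp
  set y : A := (M + Q) * ((v • B1 + Z) * X + Dx) with hy
  have hyz : y = v • w + z := by
    rw [hy, hz, hw]
    have : (v • B1 + Z) * X + Dx = v • B1 + (v • (B1 * (X - 1)) + Z * X + Dx) := by
      rw [mul_sub, mul_one, add_mul, smul_mul_assoc, smul_sub]; abel
    rw [this, mul_add, add_mul M Q (v • B1), mul_smul_comm, mul_smul_comm]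
    abel
  -- st Φ * D = ν y
  have hstPhi : L.st (Θ * X) * D = (ν : ℂ) • y := by
    rw [hD, L.st_mul, hy, ← hstPX]
    calc L.st X * L.st Θ * (Θ * ((v • B1 + Z) * X + Dx))
        = L.st X * (L.st Θ * Θ) * ((v • B1 + Z) * X + Dx) := by noncomm_ring
      _ = (ν : ℂ) • (L.st X * P * ((v • B1 + Z) * X + Dx)) := by
          rw [hP, mul_smul_comm, smul_mul_assoc]
  have hstD : L.st D * (Θ * X) = (ν : ℂ) • L.st y := by
    have h1 : L.st (L.st (Θ * X) * D) = L.st D * (Θ * X) := by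
      rw [L.st_mul, L.st_st]
    rw [← h1, hstPhi, L.st_smul, Complex.conj_ofReal]
  have hsum : L.st y + y = (c0 / ν) • L.E 0 0 + (c1 / ν) • L.E 1 1 := by
    rw [hstPhi, hstD, ← smul_add] at hder
    apply smul_right_injective A hνc
    simp only
    rw [hder, smul_add, smul_smul, smul_smul, mul_div_cancel₀ _ hνc, mul_div_cancel₀ _ hνc]
  -- w and st w
  have hw1 : w = ((m0 : ℂ) * p) • L.E 0 1 + ((m1 : ℂ) * q) • (L.S * L.E 1 0) := by
    rw [hw, hMdef, hB1]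
    simp only [add_mul, mul_add, smul_mul_assoc, mul_smul_comm, e0001, e1101, s0, s1, smul_smul,
      smul_zero, add_zero, zero_add]
    rw [mul_comm p, mul_comm q]
  have hstw : L.st w = ((m0 : ℂ) * conj p) • L.E 1 0 + ((m1 : ℂ) * conj q) • (L.T * L.E 0 1) := by
    rw [hw1, map_add, L.st_smul, L.st_smul, L.st_mul, L.st_E, L.st_E, L.st_S, ← L.T_comm,
      map_mul, map_mul, Complex.conj_ofReal, Complex.conj_ofReal]
  have hPpE : ∀ i, L.Pp (L.E i i) = 0 := fun i => by rw [← L.P0_E i, L.Pp_P0]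
  have hPpw : L.Pp w = 0 := by
    rw [hw1, map_add, map_smul, map_smul, ← L.Pm_E, ← L.Pm_SE, L.Pp_Pm, L.Pp_Pm]; simp
  have hPpstw : L.Pp (L.st w) = L.st w := by
    rw [hstw, map_add, map_smul, map_smul, L.Pp_E, L.Pp_TE]
  have hPpstz : L.Pp (L.st z) = 0 := by rw [← L.st_Pm, nz, map_zero]
  have hPpz : L.Pp z = -((conj v) • L.st w) := by
    have h1 := congrArg L.Pp hsum
    rw [hyz] at h1
    simp only [map_add, map_smul, L.st_smul, hPpE, smul_zero, add_zero, hPpw, hPpstw, hPpstz,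
      zero_add] at h1
    rw [eq_neg_iff_add_eq_zero, add_comm]
    exact h1
  have hzform : z = L.d 0 z • L.E 0 0 + L.d 1 z • L.E 1 1 - (conj v) • L.st w := by
    have := derivative_form_split L nz
    rw [hPpz] at this
    rw [sub_eq_add_neg]
    exact this
  have hyform : y = v • w - (conj v) • L.st w + L.d 0 z • L.E 0 0 + L.d 1 z • L.E 1 1 := by
    rw [hyz]
    conv_lhs => rw [hzform]
    abel
  -- inverse of M
  set Mi : A := ((m0 : ℂ)⁻¹) • L.E 0 0 + ((m1 : ℂ)⁻¹) • L.E 1 1 with hMi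
  have hMMi : M * Mi = 1 := by
    rw [hMdef, hMi, ← L.E_one]
    simp only [add_mul, mul_add, smul_mul_assoc, mul_smul_comm, e0000, e1111, e0011, e1100,
      smul_smul, smul_zero, add_zero, zero_add]
    rw [inv_mul_cancel₀ hm0c, inv_mul_cancel₀ hm1c, one_smul, one_smul]
  have hMiM : Mi * M = 1 := by
    rw [hMdef, hMi, ← L.E_one]
    simp only [add_mul, mul_add, smul_mul_assoc, mul_smul_comm, e0000, e1111, e0011, e1100,
      smul_smul, smul_zero, add_zero, zero_add]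
    rw [mul_inv_cancel₀ hm0c, mul_inv_cancel₀ hm1c, one_smul, one_smul]
  have hPhiPhi : L.st (Θ * X) * (Θ * X) = (ν : ℂ) • M := by
    rw [L.st_mul]
    calc L.st X * L.st Θ * (Θ * X) = L.st X * (L.st Θ * Θ) * X := by noncomm_ring
      _ = (ν : ℂ) • (L.st X * P * X) := by rw [hP, mul_smul_comm, smul_mul_assoc]
      _ = (ν : ℂ) • M := by rw [hM]
  have hDeq : D = Θ * X * (Mi * y) := by
    obtain ⟨g, hg⟩ := hu
    have hst1 : L.st (↑g⁻¹ : A) * L.st (Θ * X) = 1 := by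
      rw [← L.st_mul, ← hg, Units.mul_inv]
      have h1 : L.st (1 : A) = 1 := by
        rw [← L.E_one, map_add, L.st_E, L.st_E]
      exact h1
    have h2 : L.st (Θ * X) * D = L.st (Θ * X) * (Θ * X * (Mi * y)) := by
      rw [hstPhi, ← mul_assoc, hPhiPhi, smul_mul_assoc, ← mul_assoc, hMMi, one_mul]
    calc D = (L.st (↑g⁻¹ : A) * L.st (Θ * X)) * D := by rw [hst1, one_mul]
      _ = L.st (↑g⁻¹ : A) * (L.st (Θ * X) * (Θ * X * (Mi * y))) := by rw [mul_assoc, h2]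
      _ = Θ * X * (Mi * y) := by rw [← mul_assoc, hst1, one_mul]
  have hMiw : Mi * w = B1 := by rw [hw, ← mul_assoc, hMiM, one_mul]
  have hMistw : Mi * L.st w = ((m0 / m1 : ℝ) : ℂ) • (conj p) • L.E 1 0
      + ((m1 / m0 : ℝ) : ℂ) • (conj q) • (L.T * L.E 0 1) := by
    rw [hMi, hstw]
    simp only [add_mul, mul_add, smul_mul_assoc, mul_smul_comm, e0010, e1110, t0, t1,
      smul_zero, add_zero, zero_add]
    push_cast
    module
  refine ⟨(m0 : ℂ)⁻¹ * L.d 0 z, (m1 : ℂ)⁻¹ * L.d 1 z, ?_⟩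
  rw [hDeq, hyform]
  congr 1
  rw [mul_add, mul_add, mul_sub, mul_smul_comm, mul_smul_comm, hMiw, hMistw, mul_smul_comm,
    mul_smul_comm]
  have hd0 : Mi * L.E 0 0 = (m0 : ℂ)⁻¹ • L.E 0 0 := by
    rw [hMi, add_mul, smul_mul_assoc, smul_mul_assoc, e0000, e1100]; simp
  have hd1 : Mi * L.E 1 1 = (m1 : ℂ)⁻¹ • L.E 1 1 := by
    rw [hMi, add_mul, smul_mul_assoc, smul_mul_assoc, e1111, e0011]; simp
  rw [hd0, hd1]
  module

end derivative_form_aux

/-- JOB D1: form of the logarithmic derivative of `Φ = Θ X`. -/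
theorem derivative_form {A : Type} [NormedRing A] [NormedAlgebra ℂ A] [CompleteSpace A]
    (L : LoopAlg A) {U : Set ℂ} (hU : IsOpen U) (Θ X P : ℂ → A) (ν m0 m1 : ℂ → ℝ)
    (p q : ℂ → ℂ) (Z : ℂ → ℂ → A)
    (hΘ : ∀ t ∈ U, ∃ Θ' : ℂ →L[ℝ] A, HasFDerivAt Θ Θ' t ∧
      ∀ v, Θ' v = Θ t * (v • (p t • L.E 0 1 + q t • (L.S * L.E 1 0)) + Z t v))
    (hZ : ∀ t ∈ U, ∀ v, L.Pm (Z t v) = 0)
    (hX : ∀ t ∈ U, DifferentiableAt ℝ X t)
    (hX1 : ∀ t ∈ U, L.Pp (X t - 1) = X t - 1)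
    (hν : ∀ t ∈ U, DifferentiableAt ℝ ν t) (hν0 : ∀ t ∈ U, 0 < ν t)
    (hm0 : ∀ t ∈ U, DifferentiableAt ℝ m0 t) (hm00 : ∀ t ∈ U, 0 < m0 t)
    (hm1 : ∀ t ∈ U, DifferentiableAt ℝ m1 t) (hm10 : ∀ t ∈ U, 0 < m1 t)
    (hP : ∀ t ∈ U, L.st (Θ t) * Θ t = (ν t : ℂ) • P t)
    (hPX : ∀ t ∈ U, L.Pp (P t * X t) = 0)
    (hPX0 : ∀ t ∈ U, L.P0 (P t * X t) = (m0 t : ℂ) • L.E 0 0 + (m1 t : ℂ) • L.E 1 1)
    (hM : ∀ t ∈ U, L.st (X t) * P t * X t = (m0 t : ℂ) • L.E 0 0 + (m1 t : ℂ) • L.E 1 1)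
    (hu : ∀ t ∈ U, IsUnit (Θ t * X t)) :
    ∀ t ∈ U, ∀ v : ℂ, ∃ δ0 δ1 : ℂ,
      fderiv ℝ (fun s => Θ s * X s) t v = Θ t * X t *
        (v • (p t • L.E 0 1 + q t • (L.S * L.E 1 0))
          - (conj v) • (((m0 t / m1 t : ℝ) : ℂ) • (conj (p t)) • L.E 1 0
            + ((m1 t / m0 t : ℝ) : ℂ) • (conj (q t)) • (L.T * L.E 0 1))
          + δ0 • L.E 0 0 + δ1 • L.E 1 1) := by
  intro t ht v
  obtain ⟨Θ', hΘ', hΘv⟩ := hΘ t ht
  have hXd : HasFDerivAt X (fderiv ℝ X t) t := (hX t ht).hasFDerivAt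
  have hnhds : U ∈ nhds t := hU.mem_nhds ht
  have hPhi : HasFDerivAt (fun s => Θ s * X s) (Θ t • fderiv ℝ X t + MulOpposite.op (X t) • Θ') t :=
    hΘ'.mul' hXd
  have hD : fderiv ℝ (fun s => Θ s * X s) t v = Θ t *
      ((v • (p t • L.E 0 1 + q t • (L.S * L.E 1 0)) + Z t v) * X t + fderiv ℝ X t v) := by
    rw [hPhi.fderiv]
    simp only [add_apply, ContinuousLinearMap.smul_apply, smul_eq_mul,
      MulOpposite.smul_eq_mul_unop, MulOpposite.unop_op]
    rw [hΘv]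
    noncomm_ring
  have hDx : L.Pp (fderiv ℝ X t v) = fderiv ℝ X t v := by
    have h1 : HasFDerivAt (fun s => X s - 1) (fderiv ℝ X t) t := hXd.sub_const 1
    have h2 : HasFDerivAt (fun s => L.Pp (X s - 1))
        ((L.Pp.restrictScalars ℝ).comp (fderiv ℝ X t)) t :=
      (L.Pp.restrictScalars ℝ).hasFDerivAt.comp t h1
    have h3 : (fun s => L.Pp (X s - 1)) =ᶠ[nhds t] fun s => X s - 1 := by
      filter_upwards [hnhds] with s hs
      exact hX1 s hs
    have h4 := (h2.congr_of_eventuallyEq h3.symm).unique h1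
    have h5 := congrArg (fun f : ℂ →L[ℝ] A => f v) h4
    exact h5
  -- differentiate st Φ * Φ = ν M
  have hst : HasFDerivAt (fun s => L.st (Θ s * X s))
      (L.st.comp (fderiv ℝ (fun s => Θ s * X s) t)) t :=
    L.st.hasFDerivAt.comp t hPhi.differentiableAt.hasFDerivAt
  have hprod := hst.mul' hPhi.differentiableAt.hasFDerivAt
  have hreal : ∀ f : ℂ → ℝ, DifferentiableAt ℝ f t →
      HasFDerivAt (fun s => ((f s : ℝ) : ℂ)) (Complex.ofRealCLM.comp (fderiv ℝ f t)) t :=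
    fun f hf => Complex.ofRealCLM.hasFDerivAt.comp t hf.hasFDerivAt
  have hscal : ∀ (f : ℂ → ℝ) (e : A), DifferentiableAt ℝ f t →
      HasFDerivAt (fun s => ((f s : ℝ) : ℂ) • e)
        ((Complex.ofRealCLM.comp (fderiv ℝ f t)).smulRight e) t :=
    fun f e hf => (hreal f hf).smul_const e
  have hRHS : HasFDerivAt (fun s => (((ν s * m0 s : ℝ)) : ℂ) • L.E 0 0 +
      (((ν s * m1 s : ℝ)) : ℂ) • L.E 1 1)
      ((Complex.ofRealCLM.comp (fderiv ℝ (fun s => ν s * m0 s) t)).smulRight (L.E 0 0) +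
      (Complex.ofRealCLM.comp (fderiv ℝ (fun s => ν s * m1 s) t)).smulRight (L.E 1 1)) t :=
    (hscal (fun s => ν s * m0 s) (L.E 0 0) ((hν t ht).mul (hm0 t ht))).add
      (hscal (fun s => ν s * m1 s) (L.E 1 1) ((hν t ht).mul (hm1 t ht)))
  have heq : (fun s => L.st (Θ s * X s) * (Θ s * X s)) =ᶠ[nhds t]
      fun s => (((ν s * m0 s : ℝ)) : ℂ) • L.E 0 0 + (((ν s * m1 s : ℝ)) : ℂ) • L.E 1 1 := by
    filter_upwards [hnhds] with s hs
    rw [L.st_mul]
    calc L.st (X s) * L.st (Θ s) * (Θ s * X s) = L.st (X s) * (L.st (Θ s) * Θ s) * X s := by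
          noncomm_ring
      _ = (ν s : ℂ) • (L.st (X s) * P s * X s) := by rw [hP s hs, mul_smul_comm, smul_mul_assoc]
      _ = _ := by
          rw [hM s hs, smul_add, smul_smul, smul_smul]
          push_cast
          rfl
  have huniq := (hprod.congr_of_eventuallyEq heq.symm).unique hRHS
  have huv := congrArg (fun f : ℂ →L[ℝ] A => f v) huniq
  simp only [add_apply, ContinuousLinearMap.smul_apply, smul_eq_mul,
      MulOpposite.smul_eq_mul_unop, MulOpposite.unop_op, ContinuousLinearMap.smulRight_apply,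
      ContinuousLinearMap.comp_apply] at huv
  rw [add_comm] at huv
  exact derivative_form_alg L (Θ t) (X t) (P t) _ (fderiv ℝ X t v) (Z t v) (ν t) (m0 t) (m1 t)
    (p t) (q t) v _ _ hD (hZ t ht v) (hX1 t ht) hDx (hν0 t ht) (hm00 t ht) (hm10 t ht)
    (hP t ht) (hPX t ht) (hPX0 t ht) (hM t ht) (hu t ht) huv



end Pool.Agent.Helper87.CMC
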