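import Mathlib
import Pool.Agent.Helper87.CMC.Defs

set_option autoImplicit false

namespace Pool.Agent.Helper87.CMC

open scoped ComplexConjugate
open Set Metric
open scoped ContDiff

section
variable {A : Type} [NormedRing A] [NormedAlgebra ℂ A] (L : LoopAlg A)

theorem factorisation_st_one : L.st 1 = 1 := by
  rw [← L.E_one, map_add, L.st_E, L.st_E]

theorem factorisation_P0_one : L.P0 1 = 1 := by
  rw [← L.E_one, map_add, L.P0_E, L.P0_E]

theorem factorisation_Pp_one : L.Pp 1 = 0 := by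
  rw [← factorisation_P0_one L, L.Pp_P0]

theorem factorisation_d_one (i : Fin 2) : L.d i 1 = 1 := by
  have h : L.E 0 0 + L.E 1 1 = L.d 0 1 • L.E 0 0 + L.d 1 1 • L.E 1 1 := by
    rw [← L.P0_eq 1, factorisation_P0_one L, L.E_one]
  have h0 := congrArg (L.ev 0 0) h
  have h1 := congrArg (L.ev 1 1) h
  simp [L.ev_E] at h0 h1
  fin_cases i
  · exact h0.symm
  · exact h1.symm

theorem factorisation_alg (ε : ℝ) (g Y : A)
    (hY : Y + (ε : ℂ) • L.Pp ((g + L.st g + (ε : ℂ) • (L.st g * g)) * Y)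
      = - L.Pp (g + L.st g + (ε : ℂ) • (L.st g * g)))
    (D X P : A) (hD : D = 1 + (ε : ℂ) • g) (hX : X = 1 + (ε : ℂ) • Y) (hP : P = L.st D * D) :
    L.Pp Y = Y ∧
      P * X = 1 + (ε : ℂ) • ((g + L.st g + (ε : ℂ) • (L.st g * g)) + Y +
        (ε : ℂ) • ((g + L.st g + (ε : ℂ) • (L.st g * g)) * Y)) ∧
      L.Pp (P * X) = 0 ∧ L.st X * P * X = L.P0 (P * X) ∧ ∀ i, (L.d i (P * X)).im = 0 := by
  have hst1 := factorisation_st_one L
  have hPp1 := factorisation_Pp_one L
  have hPm : ∀ x, L.Pm (L.st x) = L.st (L.Pp x) := fun x => (L.st_Pp x).symm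
  -- `P = 1 + ε R`
  have hPR : P = 1 + (ε : ℂ) • (g + L.st g + (ε : ℂ) • (L.st g * g)) := by
    rw [hP, hD, map_add, hst1, L.st_smul, Complex.conj_ofReal]
    simp only [mul_add, add_mul, one_mul, mul_one, smul_mul_assoc, mul_smul_comm, smul_add]
    abel
  generalize hR : g + L.st g + (ε : ℂ) • (L.st g * g) = R at hY hPR ⊢
  have hYeq : Y = L.Pp (-R - (ε : ℂ) • (R * Y)) := by
    rw [map_sub, map_neg, map_smul]
    rw [eq_sub_iff_add_eq]
    exact hY
  have hYY : L.Pp Y = Y := by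
    rw [hYeq, L.Pp_Pp]
  have hPX : P * X = 1 + (ε : ℂ) • (R + Y + (ε : ℂ) • (R * Y)) := by
    rw [hPR, hX]
    simp only [mul_add, add_mul, one_mul, mul_one, smul_mul_assoc, mul_smul_comm, smul_add]
    abel
  have hPpPX : L.Pp (P * X) = 0 := by
    rw [hPX, map_add, hPp1, map_smul, map_add, map_add, map_smul, hYY, add_assoc, hY]
    simp
  have hstP : L.st P = P := by
    rw [hP, L.st_mul, L.st_st]
  have hstY : L.Pm (L.st Y) = L.st Y := by rw [hPm, hYY]
  have hstX : L.st X = 1 + (ε : ℂ) • L.st Y := by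
    rw [hX, map_add, hst1, L.st_smul, Complex.conj_ofReal]
  have hw : L.st X * P * X = L.P0 (P * X) := by
    have hassoc : L.st X * P * X = L.st X * (P * X) := mul_assoc _ _ _
    have hstw : L.st (L.st X * P * X) = L.st X * P * X := by
      rw [L.st_mul, L.st_mul, L.st_st, hstP, mul_assoc]
    generalize hQ : P * X = Q at hPpPX hassoc ⊢
    have hQsum : Q = L.Pm Q + L.P0 Q := by
      have := L.P_sum Q
      rw [hPpPX, add_zero] at this
      exact this.symm
    set w := L.st X * P * X with hwdef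
    have hstYE : ∀ i, L.Pm (L.st Y * L.E i i) = L.st Y * L.E i i := by
      intro i
      have : L.st Y * L.E i i = L.st (L.E i i * Y) := by rw [L.st_mul, L.st_E]
      rw [this, hPm, L.Pp_E_mul i Y hYY]
    have h1 : L.Pm (L.st Y * L.P0 Q) = L.st Y * L.P0 Q := by
      rw [L.P0_eq Q, mul_add, mul_smul_comm, mul_smul_comm, map_add, map_smul, map_smul,
        hstYE, hstYE]
    have h2 : L.Pm (L.st Y * L.Pm Q) = L.st Y * L.Pm Q := by
      have hz : L.Pm Q = L.st (L.Pp (L.st Q)) := by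
        rw [L.st_Pp, L.st_st]
      have : L.st Y * L.Pm Q = L.st (L.Pp (L.st Q) * Y) := by rw [L.st_mul, ← hz]
      rw [this, hPm, L.Pp_mul _ _ (L.Pp_Pp _) hYY]
    have hwu : w = L.P0 Q + (L.Pm Q + (ε : ℂ) • (L.st Y * L.P0 Q) +
        (ε : ℂ) • (L.st Y * L.Pm Q)) := by
      rw [hassoc, hstX]
      conv_lhs => rw [hQsum]
      simp only [mul_add, add_mul, one_mul, smul_mul_assoc]
      abel
    have hu : L.Pm (L.Pm Q + (ε : ℂ) • (L.st Y * L.P0 Q) +
        (ε : ℂ) • (L.st Y * L.Pm Q)) = L.Pm Q + (ε : ℂ) • (L.st Y * L.P0 Q) +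
        (ε : ℂ) • (L.st Y * L.Pm Q) := by
      rw [map_add, map_add, map_smul, map_smul, L.Pm_Pm, h1, h2]
    generalize L.Pm Q + (ε : ℂ) • (L.st Y * L.P0 Q) + (ε : ℂ) • (L.st Y * L.Pm Q) = u at hwu hu
    have hPmw : L.Pm w = u := by
      rw [hwu, map_add, L.Pm_P0, zero_add, hu]
    have hPpw : L.Pp w = 0 := by
      rw [hwu, map_add, L.Pp_P0, zero_add, ← hu, L.Pp_Pm]
    have hu0 : u = 0 := by
      rw [← hPmw, ← hstw, hPm, hPpw, map_zero]
    rw [hwu, hu0, add_zero]
  refine ⟨hYY, hPX, hPpPX, hw, ?_⟩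
  have hstw : L.st (L.P0 (P * X)) = L.P0 (P * X) := by
    rw [← hw, L.st_mul, L.st_mul, L.st_st, hstP, mul_assoc]
  rw [L.P0_eq (P * X), map_add, L.st_smul, L.st_smul, L.st_E, L.st_E] at hstw
  have h0 := congrArg (L.ev 0 0) hstw
  have h1 := congrArg (L.ev 1 1) hstw
  simp [L.ev_E] at h0 h1
  intro i
  fin_cases i
  · exact Complex.conj_eq_iff_im.1 h0
  · exact Complex.conj_eq_iff_im.1 h1

/-- the remainder -/
noncomputable def factorisation_R (p : ℝ × A) : A := p.2 + L.st p.2 + (p.1 : ℂ) • (L.st p.2 * p.2)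

theorem factorisation_R_smooth : ContDiff ℝ ∞ (factorisation_R L) := by
  have h : factorisation_R L = fun p : ℝ × A => p.2 + L.st p.2 + p.1 • (L.st p.2 * p.2) := by
    funext p
    unfold factorisation_R
    rw [Complex.coe_smul]
  rw [h]
  have hst : ContDiff ℝ ∞ (fun p : ℝ × A => L.st p.2) := L.st.contDiff.comp contDiff_snd
  exact (contDiff_snd.add hst).add (contDiff_fst.smul (hst.mul contDiff_snd))

theorem factorisation_R_bound (c : ℝ) (hc : 0 ≤ c) (ε : ℝ) (hε : |ε| ≤ 1) (g : A)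
    (hg : ‖g‖ ≤ c) : ‖factorisation_R L (ε, g)‖ ≤ c + ‖L.st‖ * c + ‖L.st‖ * c * c := by
  unfold factorisation_R
  have h1 : ‖L.st g‖ ≤ ‖L.st‖ * c := (L.st.le_opNorm g).trans (by gcongr)
  have h2 : ‖(ε : ℂ) • (L.st g * g)‖ ≤ ‖L.st‖ * c * c := by
    rw [norm_smul, Complex.norm_real, Real.norm_eq_abs]
    calc |ε| * ‖L.st g * g‖ ≤ 1 * ‖L.st g * g‖ := by gcongr
      _ = ‖L.st g * g‖ := one_mul _
      _ ≤ ‖L.st g‖ * ‖g‖ := norm_mul_le _ _
      _ ≤ ‖L.st‖ * c * c := by gcongr
  calc ‖g + L.st g + (ε : ℂ) • (L.st g * g)‖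
      ≤ ‖g‖ + ‖L.st g‖ + ‖(ε : ℂ) • (L.st g * g)‖ := norm_add₃_le
    _ ≤ _ := by gcongr

/-- left multiplication followed by the projection -/
noncomputable def factorisation_W : A →L[ℝ] (A →L[ℝ] A) :=
  (ContinuousLinearMap.compL ℝ A A A (L.Pp.restrictScalars ℝ)).comp (ContinuousLinearMap.mul ℝ A)

theorem factorisation_W_apply (r y : A) : factorisation_W L r y = L.Pp (r * y) := rfl

theorem factorisation_W_norm (r : A) : ‖factorisation_W L r‖ ≤ ‖L.Pp‖ * ‖r‖ := by
  refine ContinuousLinearMap.opNorm_le_bound _ (by positivity) fun y => ?_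
  rw [factorisation_W_apply]
  calc ‖L.Pp (r * y)‖ ≤ ‖L.Pp‖ * ‖r * y‖ := L.Pp.le_opNorm _
    _ ≤ ‖L.Pp‖ * (‖r‖ * ‖y‖) := by gcongr; exact norm_mul_le _ _
    _ = ‖L.Pp‖ * ‖r‖ * ‖y‖ := by ring

/-- the solution -/
noncomputable def factorisation_X (p : ℝ × A) : A :=
  - (Ring.inverse (1 + p.1 • factorisation_W L (factorisation_R L p)))
      (L.Pp (factorisation_R L p))

omit [NormedAlgebra ℂ A] in
theorem factorisation_isUnit [CompleteSpace A] (T : A) (hT : ‖T‖ < 1) : IsUnit (1 + T) := by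
  have h : ‖-T‖ < 1 := by rwa [norm_neg]
  have := isUnit_one_sub_of_norm_lt_one h
  rwa [sub_neg_eq_add] at this

theorem factorisation_X_smooth [CompleteSpace A] (p : ℝ × A)
    (hp : ‖p.1 • factorisation_W L (factorisation_R L p)‖ < 1) :
    ContDiffAt ℝ ∞ (factorisation_X L) p := by
  have hu : IsUnit (1 + p.1 • factorisation_W L (factorisation_R L p)) := by
    have h : ‖-(p.1 • factorisation_W L (factorisation_R L p))‖ < 1 := by rwa [norm_neg]
    have := isUnit_one_sub_of_norm_lt_one h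
    rwa [sub_neg_eq_add] at this
  obtain ⟨u, hu⟩ := hu
  have h1 : ContDiff ℝ ∞ (fun p : ℝ × A =>
      1 + p.1 • factorisation_W L (factorisation_R L p)) :=
    contDiff_const.add (contDiff_fst.smul
      ((factorisation_W L).contDiff.comp (factorisation_R_smooth L)))
  have h2 : ContDiffAt ℝ ∞ (fun p : ℝ × A =>
      Ring.inverse (1 + p.1 • factorisation_W L (factorisation_R L p))) p := by
    have h3 := contDiffAt_ringInverse ℝ (n := ∞) u
    rw [hu] at h3
    exact h3.comp p h1.contDiffAt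
  have h4 : ContDiff ℝ ∞ (fun p : ℝ × A => L.Pp (factorisation_R L p)) :=
    (L.Pp.restrictScalars ℝ).contDiff.comp (factorisation_R_smooth L)
  exact (h2.clm_apply h4.contDiffAt).neg

theorem factorisation_X_iff [CompleteSpace A] (ε : ℝ) (g : A)
    (hp : ‖ε • factorisation_W L (factorisation_R L (ε, g))‖ < 1) (Y : A) :
    Y + (ε : ℂ) • L.Pp ((g + L.st g + (ε : ℂ) • (L.st g * g)) * Y)
      = - L.Pp (g + L.st g + (ε : ℂ) • (L.st g * g)) ↔ Y = factorisation_X L (ε, g) := by
  have hR : g + L.st g + (ε : ℂ) • (L.st g * g) = factorisation_R L (ε, g) := rfl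
  rw [hR]
  have hu : IsUnit (1 + ε • factorisation_W L (factorisation_R L (ε, g))) := by
    have h : ‖-(ε • factorisation_W L (factorisation_R L (ε, g)))‖ < 1 := by rwa [norm_neg]
    have := isUnit_one_sub_of_norm_lt_one h
    rwa [sub_neg_eq_add] at this
  have hY : Y + (ε : ℂ) • L.Pp (factorisation_R L (ε, g) * Y) =
      (1 + ε • factorisation_W L (factorisation_R L (ε, g))) Y := by
    rw [Complex.coe_smul]
    rfl
  have hX : factorisation_X L (ε, g) =
      - (Ring.inverse (1 + ε • factorisation_W L (factorisation_R L (ε, g))))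
        (L.Pp (factorisation_R L (ε, g))) := rfl
  rw [hY, hX]
  generalize 1 + ε • factorisation_W L (factorisation_R L (ε, g)) = T at hu
  have h1 : ∀ y, T (Ring.inverse T y) = y := by
    intro y
    have := congrArg (fun S : A →L[ℝ] A => S y) (Ring.mul_inverse_cancel T hu)
    exact this
  have h2 : ∀ y, Ring.inverse T (T y) = y := by
    intro y
    have := congrArg (fun S : A →L[ℝ] A => S y) (Ring.inverse_mul_cancel T hu)
    exact this
  constructor
  · intro h
    rw [← h2 Y, h, map_neg]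
  · intro h
    rw [h, map_neg, h1]

end

/-- JOB C: Birkhoff factorisation near the identity, smooth dependence, uniqueness. -/
theorem factorisation {A : Type} [NormedRing A] [NormedAlgebra ℂ A] [CompleteSpace A]
    (L : LoopAlg A) (C : ℝ) :
    ∃ (ε0 C1 : ℝ) (Xh : ℝ × A → A), 0 < ε0 ∧ ε0 ≤ 1 ∧ 0 < C1 ∧
      ContDiffOn ℝ ∞ Xh (Ioo (-ε0) ε0 ×ˢ ball (0 : A) C) ∧
      ∀ (ε : ℝ) (g D X P : A), |ε| < ε0 → ‖g‖ < C → D = 1 + (ε : ℂ) • g →
        X = 1 + (ε : ℂ) • Xh (ε, g) → P = L.st D * D →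
        L.Pp (Xh (ε, g)) = Xh (ε, g) ∧ ‖Xh (ε, g)‖ ≤ C1 ∧
        (∀ Y : A, Y + (ε : ℂ) • L.Pp ((g + L.st g + (ε : ℂ) • (L.st g * g)) * Y)
            = - L.Pp (g + L.st g + (ε : ℂ) • (L.st g * g)) ↔ Y = Xh (ε, g)) ∧
        L.Pp (P * X) = 0 ∧
        L.st X * P * X = L.P0 (P * X) ∧
        (∀ i, (L.d i (P * X)).im = 0 ∧ |(L.d i (P * X)).re - 1| ≤ C1 * |ε| ∧
          1 / 2 < (L.d i (P * X)).re ∧ (L.d i (P * X)).re < 2) ∧
        IsUnit D ∧ IsUnit X := by
  set c : ℝ := |C| + 1 with hc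
  have hc1 : 1 ≤ c := by have := abs_nonneg C; linarith
  have hc0 : 0 ≤ c := by linarith
  set ρ : ℝ := c + ‖L.st‖ * c + ‖L.st‖ * c * c with hρ
  have hρ0 : 0 ≤ ρ := by positivity
  set y0 : ℝ := 2 * (‖L.Pp‖ * ρ) with hy0
  have hy00 : 0 ≤ y0 := by positivity
  set C1 : ℝ := c + y0 + (‖L.d 0‖ + ‖L.d 1‖) * (ρ + y0 + ρ * y0) with hC1
  have hC1c : c ≤ C1 := by
    have : 0 ≤ (‖L.d 0‖ + ‖L.d 1‖) * (ρ + y0 + ρ * y0) := by positivity
    linarith
  have hC1y : y0 ≤ C1 := by
    have : 0 ≤ (‖L.d 0‖ + ‖L.d 1‖) * (ρ + y0 + ρ * y0) := by positivity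
    linarith
  have hC1d : (‖L.d 0‖ + ‖L.d 1‖) * (ρ + y0 + ρ * y0) ≤ C1 := by linarith
  have hC10 : 0 < C1 := by linarith
  have hε1 : 1 / (2 * C1) ≤ 1 := by
    rw [div_le_one (by positivity)]
    linarith
  have hsmall : ∀ ε : ℝ, |ε| < 1 / (2 * C1) → |ε| * C1 < 1 / 2 := by
    intro ε hε
    rw [lt_div_iff₀ (by positivity)] at hε
    linarith
  have hW : ∀ (ε : ℝ) (g : A), |ε| < 1 / (2 * C1) → ‖g‖ < C →
      ‖ε • factorisation_W L (factorisation_R L (ε, g))‖ ≤ 1 / 2 := by
    intro ε g hε hg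
    have hgc : ‖g‖ ≤ c := by
      have := le_abs_self C
      linarith
    have h1 := factorisation_R_bound L c hc0 ε (hε.le.trans hε1) g hgc
    rw [norm_smul, Real.norm_eq_abs]
    calc |ε| * ‖factorisation_W L (factorisation_R L (ε, g))‖
        ≤ |ε| * (‖L.Pp‖ * ‖factorisation_R L (ε, g)‖) := by
          gcongr
          exact factorisation_W_norm L _
      _ ≤ |ε| * (‖L.Pp‖ * ρ) := by gcongr
      _ ≤ |ε| * C1 := by
          gcongr
          have : 0 ≤ ‖L.Pp‖ * ρ := by positivity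
          linarith
      _ ≤ 1 / 2 := (hsmall ε hε).le
  refine ⟨1 / (2 * C1), C1, factorisation_X L, by positivity, hε1, hC10, ?_, ?_⟩
  · rintro ⟨ε, g⟩ ⟨h1, h2⟩
    refine (factorisation_X_smooth L (ε, g) ?_).contDiffWithinAt
    refine lt_of_le_of_lt (hW ε g (abs_lt.2 h1) ?_) (by norm_num)
    simpa using h2
  · intro ε g D X P hε hg hD hX hP
    have hgc : ‖g‖ ≤ c := by
      have := le_abs_self C
      linarith
    have hWs := hW ε g hε hg
    have hWs' : ‖ε • factorisation_W L (factorisation_R L (ε, g))‖ < 1 := by linarith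
    have hiff := factorisation_X_iff L ε g hWs'
    have hY := (hiff _).2 rfl
    obtain ⟨hYY, hPX, hPpPX, hw, him⟩ := factorisation_alg L ε g _ hY D X P hD hX hP
    have hRb : ‖g + L.st g + (ε : ℂ) • (L.st g * g)‖ ≤ ρ :=
      factorisation_R_bound L c hc0 ε (hε.le.trans hε1) g hgc
    have hεC := hsmall ε hε
    -- norm of the solution
    have hYn : ‖factorisation_X L (ε, g)‖ ≤ y0 := by
      have h1 : factorisation_X L (ε, g) = - L.Pp (factorisation_R L (ε, g)) -
          (ε • factorisation_W L (factorisation_R L (ε, g))) (factorisation_X L (ε, g)) := by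
        rw [eq_sub_iff_add_eq]
        exact hY
      have h2 : ‖factorisation_X L (ε, g)‖ ≤ ‖L.Pp (factorisation_R L (ε, g))‖ +
          ‖(ε • factorisation_W L (factorisation_R L (ε, g))) (factorisation_X L (ε, g))‖ := by
        conv_lhs => rw [h1]
        refine (norm_sub_le _ _).trans ?_
        rw [norm_neg]
      have h3 : ‖L.Pp (factorisation_R L (ε, g))‖ ≤ ‖L.Pp‖ * ρ :=
        (L.Pp.le_opNorm _).trans (by gcongr; exact hRb)
      have h4 : ‖(ε • factorisation_W L (factorisation_R L (ε, g))) (factorisation_X L (ε, g))‖ ≤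
          1 / 2 * ‖factorisation_X L (ε, g)‖ :=
        (ContinuousLinearMap.le_opNorm _ _).trans (by gcongr)
      linarith
    have hY' : ‖factorisation_X L (ε, g)‖ ≤ C1 := hYn.trans hC1y
    refine ⟨hYY, hY', fun Y => hiff Y, hPpPX, hw, ?_, ?_, ?_⟩
    · intro i
      have hd1 := factorisation_d_one L i
      have hdi : ‖L.d i‖ ≤ ‖L.d 0‖ + ‖L.d 1‖ := by
        fin_cases i
        · have := norm_nonneg (L.d 1)
          simp
        · have := norm_nonneg (L.d 0)
          simp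
      have hb : ‖L.d i (P * X) - 1‖ ≤ C1 * |ε| := by
        rw [hPX, map_add, hd1, map_smul, add_sub_cancel_left, norm_smul, Complex.norm_real,
          Real.norm_eq_abs, mul_comm C1]
        gcongr
        refine ((L.d i).le_opNorm _).trans ?_
        refine le_trans ?_ hC1d
        gcongr
        have h5 : ‖(ε : ℂ) • ((g + L.st g + (ε : ℂ) • (L.st g * g)) *
            factorisation_X L (ε, g))‖ ≤ ρ * y0 := by
          rw [norm_smul, Complex.norm_real, Real.norm_eq_abs]
          calc |ε| * ‖(g + L.st g + (ε : ℂ) • (L.st g * g)) * factorisation_X L (ε, g)‖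
              ≤ 1 * ‖(g + L.st g + (ε : ℂ) • (L.st g * g)) * factorisation_X L (ε, g)‖ := by
                gcongr
                exact hε.le.trans hε1
            _ = ‖(g + L.st g + (ε : ℂ) • (L.st g * g)) * factorisation_X L (ε, g)‖ := one_mul _
            _ ≤ ‖g + L.st g + (ε : ℂ) • (L.st g * g)‖ * ‖factorisation_X L (ε, g)‖ :=
                norm_mul_le _ _
            _ ≤ ρ * y0 := by gcongr
        exact norm_add₃_le.trans (by gcongr)
      have hre : |(L.d i (P * X)).re - 1| ≤ C1 * |ε| := by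
        have h6 := Complex.abs_re_le_norm (L.d i (P * X) - 1)
        rw [Complex.sub_re, Complex.one_re] at h6
        exact h6.trans hb
      have hre2 : |(L.d i (P * X)).re - 1| < 1 / 2 := by
        rw [mul_comm] at hεC
        linarith
      rw [abs_lt] at hre2
      exact ⟨him i, hre, by linarith [hre2.1], by linarith [hre2.2]⟩
    · rw [hD]
      apply factorisation_isUnit
      rw [norm_smul, Complex.norm_real, Real.norm_eq_abs]
      calc |ε| * ‖g‖ ≤ |ε| * C1 := by gcongr; linarith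
        _ < 1 := by linarith
    · rw [hX]
      apply factorisation_isUnit
      rw [norm_smul, Complex.norm_real, Real.norm_eq_abs]
      calc |ε| * ‖factorisation_X L (ε, g)‖ ≤ |ε| * C1 := by gcongr
        _ < 1 := by linarith



end Pool.Agent.Helper87.CMC
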